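import Mathlib
import Pool.Agent.W772.FA.Defs

set_option autoImplicit false

/-! The exceptional parameters: auxiliary facts for `S_DIM`. -/

namespace Pool.Agent.W607.FA

open MeasureTheory Set Metric Filter Complex Pool.Agent.W772.FA
open scoped ENNReal Topology

lemma ofReal_sq (x : ℂ) : ENNReal.ofReal (‖x‖ ^ 2) = ‖x‖ₑ ^ 2 := by
  rw [ENNReal.ofReal_pow (norm_nonneg _), ofReal_norm]

/-- substitution -/
lemma lintegral_scale (G : ℝ → ℝ≥0∞) (hG : Measurable G) (τ : ℝ) (hτ : 0 < τ) :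
    ∫⁻ κ in Icc (1:ℝ) 4, G (κ * τ) = ENNReal.ofReal τ⁻¹ * ∫⁻ v in Icc τ (4 * τ), G v := by
  have h1 := Real.map_volume_mul_right (a := τ) hτ.ne'
  have h2 : ∫⁻ κ, (Icc τ (4*τ)).indicator G (κ * τ) =
      ENNReal.ofReal τ⁻¹ * ∫⁻ v in Icc τ (4 * τ), G v := by
    rw [← lintegral_map (f := (Icc τ (4*τ)).indicator G) (hG.indicator measurableSet_Icc)
      (measurable_mul_const τ), h1, lintegral_smul_measure, lintegral_indicator measurableSet_Icc,
      abs_of_pos (inv_pos.2 hτ)]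
    rfl
  rw [← h2, ← lintegral_indicator measurableSet_Icc]
  congr 1
  ext κ
  by_cases h : κ ∈ Icc (1:ℝ) 4
  · rw [indicator_of_mem h, indicator_of_mem]
    exact ⟨by nlinarith [h.1], by nlinarith [h.2]⟩
  · rw [indicator_of_notMem h, indicator_of_notMem]
    intro h'
    apply h
    refine ⟨?_, ?_⟩
    · have := h'.1
      by_contra hc
      push Not at hc
      nlinarith
    · have := h'.2
      by_contra hc
      push Not at hc
      nlinarith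

lemma sub_bound (F : ℝ → ℝ → ℝ≥0∞) (hF : Measurable (Function.uncurry F)) (R : ℝ) (hR : 0 < R) :
    ∫⁻ κ in Icc (1:ℝ) 4, ∫⁻ τ in Icc R (2 * R), F τ (κ * τ) ≤
      ENNReal.ofReal R⁻¹ * ∫⁻ u in Icc R (2 * R), ∫⁻ v in Icc R (8 * R), F u v := by
  rw [lintegral_lintegral_swap]
  · rw [← lintegral_const_mul' _ _ ENNReal.ofReal_ne_top]
    apply setLIntegral_mono' measurableSet_Icc
    intro τ hτ
    have hτ0 : 0 < τ := lt_of_lt_of_le hR hτ.1
    rw [lintegral_scale (F τ) (hF.comp measurable_prodMk_left) τ hτ0]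
    apply mul_le_mul'
    · apply ENNReal.ofReal_le_ofReal
      exact inv_anti₀ hR hτ.1
    · apply lintegral_mono_set
      exact Icc_subset_Icc hτ.1 (by linarith [hτ.2])
  · apply Measurable.aemeasurable
    exact hF.comp (measurable_snd.prodMk (measurable_fst.mul measurable_snd))

lemma cs (μ : Measure ℝ) (f : ℝ → ℝ≥0∞) (hf : AEMeasurable f μ) :
    (∫⁻ x, f x ∂μ) ^ 2 ≤ μ univ * ∫⁻ x, f x ^ 2 ∂μ := by
  have h := ENNReal.lintegral_mul_le_Lp_mul_Lq μ (p := 2) (q := 2)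
    (Real.HolderConjugate.two_two) hf (g := fun _ => 1) aemeasurable_const
  have h1 : ∫⁻ x, (f * (fun _ => 1 : ℝ → ℝ≥0∞)) x ∂μ = ∫⁻ x, f x ∂μ := by simp
  rw [h1] at h
  have h2 := pow_le_pow_left₀ (zero_le (a := ∫⁻ x, f x ∂μ)) h 2
  refine h2.trans (le_of_eq ?_)
  rw [mul_pow, ← ENNReal.rpow_natCast, ← ENNReal.rpow_natCast, ← ENNReal.rpow_mul,
    ← ENNReal.rpow_mul]
  norm_num
  rw [mul_comm]

lemma loc_bound (φ φ' : ℝ → ℂ) (a b : ℝ) (hab : a ≤ b) (hd : ∀ x, HasDerivAt φ (φ' x) x)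
    (hc : Continuous φ') (x₀ : ℝ) (hx₀ : x₀ ∈ Icc a b) :
    ENNReal.ofReal (b - a) * ‖φ x₀‖ₑ ^ 2 ≤ 2 * (∫⁻ x in Icc a b, ‖φ x‖ₑ ^ 2) +
      2 * ENNReal.ofReal (b - a) ^ 2 * (∫⁻ x in Icc a b, ‖φ' x‖ₑ ^ 2) := by
  have hφc : Continuous φ := continuous_iff_continuousAt.2 fun x => (hd x).continuousAt
  set T := ∫⁻ x in Icc a b, ‖φ' x‖ₑ with hT
  have hvol : (volume.restrict (Icc a b)) univ = ENNReal.ofReal (b - a) := by
    rw [Measure.restrict_apply_univ, Real.volume_Icc]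
  have hTsq : T ^ 2 ≤ ENNReal.ofReal (b - a) * ∫⁻ x in Icc a b, ‖φ' x‖ₑ ^ 2 := by
    have := cs (volume.restrict (Icc a b)) (fun x => ‖φ' x‖ₑ) hc.enorm.measurable.aemeasurable
    rw [hvol] at this
    exact this
  have h1 : ∀ x ∈ Icc a b, ‖φ x₀‖ₑ ≤ ‖φ x‖ₑ + T := by
    intro x hx
    have h2 : ∫ t in x..x₀, φ' t = φ x₀ - φ x :=
      intervalIntegral.integral_eq_sub_of_hasDerivAt (fun t _ => hd t)
        (hc.intervalIntegrable _ _)
    have h3 : φ x₀ = φ x + ∫ t in x..x₀, φ' t := by rw [h2]; ring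
    rw [h3]
    refine (enorm_add_le _ _).trans ?_
    gcongr
    rw [← ofReal_norm, intervalIntegral.norm_intervalIntegral_eq, ofReal_norm]
    refine (enorm_integral_le_lintegral_enorm _).trans ?_
    apply lintegral_mono_set
    refine uIoc_subset_uIcc.trans ?_
    exact uIcc_subset_Icc hx hx₀
  have h4 : ∀ x ∈ Icc a b, ‖φ x₀‖ₑ ^ 2 ≤ 2 * ‖φ x‖ₑ ^ 2 + 2 * T ^ 2 := by
    intro x hx
    have h5 := pow_le_pow_left₀ (zero_le (a := ‖φ x₀‖ₑ)) (h1 x hx) 2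
    refine h5.trans ?_
    have h6 := ENNReal.rpow_add_le_mul_rpow_add_rpow ‖φ x‖ₑ T (p := 2) (by norm_num)
    have h7 : ((2:ℝ≥0∞) ^ ((2:ℝ) - 1)) = 2 := by
      norm_num
    rw [h7] at h6
    have e : ∀ y : ℝ≥0∞, y ^ (2:ℝ) = y ^ 2 := fun y => by
      rw [← ENNReal.rpow_natCast]; norm_num
    rw [e, e, e] at h6
    rw [← mul_add]
    exact h6
  have h8 : ENNReal.ofReal (b - a) * ‖φ x₀‖ₑ ^ 2 = ∫⁻ x in Icc a b, ‖φ x₀‖ₑ ^ 2 := by
    rw [lintegral_const, hvol, mul_comm]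
  rw [h8]
  calc ∫⁻ x in Icc a b, ‖φ x₀‖ₑ ^ 2 ≤ ∫⁻ x in Icc a b, (2 * ‖φ x‖ₑ ^ 2 + 2 * T ^ 2) :=
        setLIntegral_mono' measurableSet_Icc h4
    _ = 2 * (∫⁻ x in Icc a b, ‖φ x‖ₑ ^ 2) + 2 * T ^ 2 * ENNReal.ofReal (b - a) := by
        rw [lintegral_add_right _ measurable_const, lintegral_const, hvol,
          lintegral_const_mul _ (by fun_prop)]
    _ ≤ _ := by
        refine add_le_add le_rfl ?_
        calc 2 * T ^ 2 * ENNReal.ofReal (b - a) ≤ 2 * (ENNReal.ofReal (b - a) *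
              (∫⁻ x in Icc a b, ‖φ' x‖ₑ ^ 2)) * ENNReal.ofReal (b - a) := by gcongr
          _ = _ := by ring

end Pool.Agent.W607.FA
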