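import Mathlib
import Pool.Agent.W772.FA.Defs
import Pool.Agent.W607.FA.DIMa

set_option autoImplicit false

/-! The exceptional parameters: the functions `NN`. -/

namespace Pool.Agent.W607.FA

open MeasureTheory Set Metric Filter Complex Pool.Agent.W772.FA
open scoped ENNReal Topology

lemma qa_nonneg {d : ℕ} (J : Finset (Fin d)) (z : E d) : 0 ≤ qa J z :=
  Finset.sum_nonneg fun _ _ => sq_nonneg _

lemma qb_nonneg {d : ℕ} (J : Finset (Fin d)) (z : E d) : 0 ≤ qb J z :=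
  Finset.sum_nonneg fun _ _ => sq_nonneg _

lemma qa_cont {d : ℕ} (J : Finset (Fin d)) : Continuous (qa J) := by
  unfold qa
  fun_prop

lemma qb_cont {d : ℕ} (J : Finset (Fin d)) : Continuous (qb J) := by
  unfold qb
  fun_prop

lemma norm_ker {d : ℕ} (J : Finset (Fin d)) (u v : ℝ) (z : E d) :
    ‖ker J u v z‖ = Real.exp (-(qa J z + qb J z)) := by
  unfold W772.FA.ker
  rw [Complex.norm_exp]
  congr 1
  simp
  ring

lemma norm_ker_le {d : ℕ} (J : Finset (Fin d)) (u v : ℝ) (z : E d) : ‖ker J u v z‖ ≤ 1 := by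
  rw [norm_ker]
  apply Real.exp_le_one_iff.2
  have := qa_nonneg J z
  have := qb_nonneg J z
  linarith

lemma ker_cont {d : ℕ} (J : Finset (Fin d)) :
    Continuous (fun w : (ℝ × ℝ) × E d => ker J w.1.1 w.1.2 w.2) := by
  unfold W772.FA.ker
  have := qa_cont J
  have := qb_cont J
  fun_prop

lemma int_meas {d : ℕ} (J : Finset (Fin d)) {A : ℝ} {f g : E d → ℝ} (hf : BM A f) (hg : BM A g)
    (u v : ℝ) : Measurable (fun p : E d × E d =>
      ker J u v (p.1 - p.2) * ((f p.1 * g p.2 : ℝ) : ℂ)) := by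
  have h1 : Measurable (fun p : E d × E d => ker J u v (p.1 - p.2)) :=
    ((ker_cont J).comp (by fun_prop : Continuous (fun p : E d × E d => ((u, v), p.1 - p.2)))).measurable
  have h2 : Measurable (fun p : E d × E d => ((f p.1 * g p.2 : ℝ) : ℂ)) :=
    Complex.measurable_ofReal.comp ((hf.1.comp measurable_fst).mul (hg.1.comp measurable_snd))
  exact h1.mul h2

lemma int_bound {d : ℕ} (J : Finset (Fin d)) {A : ℝ} {f g : E d → ℝ} (hf : BM A f) (hg : BM A g)
    (u v : ℝ) (p : E d × E d) :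
    ‖ker J u v (p.1 - p.2) * ((f p.1 * g p.2 : ℝ) : ℂ)‖ ≤ A ^ 2 := by
  rw [norm_mul, Complex.norm_real, Real.norm_eq_abs, abs_mul]
  have h1 := norm_ker_le J u v (p.1 - p.2)
  have h2 := hf.2 p.1
  have h3 := hg.2 p.2
  have h0 : 0 ≤ A := (abs_nonneg _).trans h2
  calc ‖ker J u v (p.1 - p.2)‖ * (|f p.1| * |g p.2|) ≤ 1 * (A * A) := by gcongr
    _ = A ^ 2 := by ring

lemma int_integrable {d : ℕ} (J : Finset (Fin d)) (μ : Measure (E d)) [IsProbabilityMeasure μ]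
    {A : ℝ} {f g : E d → ℝ} (hf : BM A f) (hg : BM A g) (u v : ℝ) :
    Integrable (fun p : E d × E d =>
      ker J u v (p.1 - p.2) * ((f p.1 * g p.2 : ℝ) : ℂ)) (μ.prod μ) :=
  Integrable.of_bound (int_meas J hf hg u v).aestronglyMeasurable (A ^ 2)
    (Eventually.of_forall fun p => int_bound J hf hg u v p)

lemma NN_bound {d : ℕ} (J : Finset (Fin d)) (μ : Measure (E d)) [IsProbabilityMeasure μ]
    {A : ℝ} {f g : E d → ℝ} (hf : BM A f) (hg : BM A g) (u v : ℝ) :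
    ‖NN J μ f g u v‖ ≤ A ^ 2 := by
  unfold NN
  have := norm_integral_le_of_norm_le_const (μ := μ.prod μ)
    (Eventually.of_forall fun p => int_bound J hf hg u v p)
  simpa using this

lemma NN_cont {d : ℕ} (J : Finset (Fin d)) (μ : Measure (E d)) [IsProbabilityMeasure μ]
    {A : ℝ} {f g : E d → ℝ} (hf : BM A f) (hg : BM A g) :
    Continuous (fun w : ℝ × ℝ => NN J μ f g w.1 w.2) := by
  unfold NN
  apply continuous_of_dominated (F := fun (w : ℝ × ℝ) (p : E d × E d) =>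
    ker J w.1 w.2 (p.1 - p.2) * ((f p.1 * g p.2 : ℝ) : ℂ)) (bound := fun _ => A ^ 2)
  · intro w
    exact (int_meas J hf hg w.1 w.2).aestronglyMeasurable
  · intro w
    exact Eventually.of_forall fun p => int_bound J hf hg w.1 w.2 p
  · exact integrable_const _
  · refine Eventually.of_forall fun p => ?_
    have h2 : Continuous (fun w : ℝ × ℝ => ker J w.1 w.2 (p.1 - p.2)) := by
      unfold W772.FA.ker
      fun_prop
    exact h2.mul_const _

/-- weight -/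
noncomputable def wt {d : ℕ} (i : Fin d) (k : ℕ) (f : E d → ℝ) (z : E d) : ℝ := z i ^ k * f z

lemma wt_BM {d : ℕ} (i : Fin d) (k : ℕ) (hk : k ≤ 2) {A ρ : ℝ} {f : E d → ℝ} (hf : BM A f)
    (hρ : ∀ z, f z ≠ 0 → ‖z‖ ≤ ρ) : BM ((1 + |ρ|) ^ 2 * A) (wt i k f) := by
  have hA : 0 ≤ A := (abs_nonneg _).trans (hf.2 0)
  refine ⟨?_, ?_⟩
  · unfold wt
    apply Measurable.mul _ hf.1
    fun_prop
  · intro z
    unfold wt
    by_cases hz : f z = 0
    · rw [hz, mul_zero, abs_zero]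
      positivity
    · rw [abs_mul, abs_pow]
      have h1 : |z i| ≤ 1 + |ρ| := by
        have h2 := PiLp.norm_apply_le z i
        rw [Real.norm_eq_abs] at h2
        have h3 := hρ z hz
        have h4 := le_abs_self ρ
        linarith
      have h5 : 1 ≤ 1 + |ρ| := by linarith [abs_nonneg ρ]
      have h6 : |z i| ^ k ≤ (1 + |ρ|) ^ 2 :=
        (pow_le_pow_left₀ (abs_nonneg _) h1 k).trans (pow_le_pow_right₀ h5 hk)
      have := hf.2 z
      gcongr

lemma wt_ne {d : ℕ} {i : Fin d} {k : ℕ} {f : E d → ℝ} {z : E d} (h : wt i k f z ≠ 0) : f z ≠ 0 := by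
  intro h0
  apply h
  unfold wt
  rw [h0, mul_zero]

/-- the derivative in the second variable -/
noncomputable def Nw {d : ℕ} (J : Finset (Fin d)) (μ : Measure (E d)) (f g : E d → ℝ)
    (u v : ℝ) : ℂ :=
  ∑ i ∈ J, (NN J μ (wt i 2 f) (wt i 0 g) u v - 2 * NN J μ (wt i 1 f) (wt i 1 g) u v +
    NN J μ (wt i 0 f) (wt i 2 g) u v)

lemma Nw_eq {d : ℕ} (J : Finset (Fin d)) (μ : Measure (E d)) [IsProbabilityMeasure μ]
    {A ρ : ℝ} {f g : E d → ℝ} (hf : BM A f) (hg : BM A g)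
    (hfρ : ∀ z, f z ≠ 0 → ‖z‖ ≤ ρ) (hgρ : ∀ z, g z ≠ 0 → ‖z‖ ≤ ρ) (u v : ℝ) :
    Nw J μ f g u v = ∫ p : E d × E d, (qb J (p.1 - p.2) : ℂ) *
      (ker J u v (p.1 - p.2) * ((f p.1 * g p.2 : ℝ) : ℂ)) ∂(μ.prod μ) := by
  have hI : ∀ (i : Fin d) (k l : ℕ), k ≤ 2 → l ≤ 2 → Integrable (fun p : E d × E d =>
      ker J u v (p.1 - p.2) * ((wt i k f p.1 * wt i l g p.2 : ℝ) : ℂ)) (μ.prod μ) :=
    fun i k l hk hl => int_integrable J μ (wt_BM i k hk hf hfρ) (wt_BM i l hl hg hgρ) u v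
  have e1 : ∀ p : E d × E d, (qb J (p.1 - p.2) : ℂ) *
      (ker J u v (p.1 - p.2) * ((f p.1 * g p.2 : ℝ) : ℂ)) =
      ∑ i ∈ J, (ker J u v (p.1 - p.2) * ((wt i 2 f p.1 * wt i 0 g p.2 : ℝ) : ℂ) -
        2 * (ker J u v (p.1 - p.2) * ((wt i 1 f p.1 * wt i 1 g p.2 : ℝ) : ℂ)) +
        ker J u v (p.1 - p.2) * ((wt i 0 f p.1 * wt i 2 g p.2 : ℝ) : ℂ)) := by
    intro p
    unfold qb wt
    push_cast
    rw [Finset.sum_mul]
    apply Finset.sum_congr rfl
    intro i _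
    simp only [PiLp.sub_apply]
    push_cast
    ring
  simp_rw [e1]
  rw [integral_finsetSum]
  · unfold Nw
    apply Finset.sum_congr rfl
    intro i _
    have a1 := integral_add ((hI i 2 0 le_rfl (by norm_num)).sub ((hI i 1 1 (by norm_num)
      (by norm_num)).const_mul 2)) (hI i 0 2 (by norm_num) le_rfl)
    have a2 := integral_sub (hI i 2 0 le_rfl (by norm_num)) ((hI i 1 1 (by norm_num)
      (by norm_num)).const_mul 2)
    rw [integral_const_mul] at a2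
    simp only [Pi.sub_apply] at a1
    rw [a1, a2]
    rfl
  · intro i _
    exact (((hI i 2 0 le_rfl (by norm_num)).sub ((hI i 1 1 (by norm_num)
      (by norm_num)).const_mul 2)).add (hI i 0 2 (by norm_num) le_rfl))

lemma Nw_cont {d : ℕ} (J : Finset (Fin d)) (μ : Measure (E d)) [IsProbabilityMeasure μ]
    {A ρ : ℝ} {f g : E d → ℝ} (hf : BM A f) (hg : BM A g)
    (hfρ : ∀ z, f z ≠ 0 → ‖z‖ ≤ ρ) (hgρ : ∀ z, g z ≠ 0 → ‖z‖ ≤ ρ) :
    Continuous (fun w : ℝ × ℝ => Nw J μ f g w.1 w.2) := by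
  unfold Nw
  apply continuous_finsetSum
  intro i _
  exact ((NN_cont J μ (wt_BM i 2 le_rfl hf hfρ) (wt_BM i 0 (by norm_num) hg hgρ)).sub
    (continuous_const.mul (NN_cont J μ (wt_BM i 1 (by norm_num) hf hfρ)
      (wt_BM i 1 (by norm_num) hg hgρ)))).add
    (NN_cont J μ (wt_BM i 0 (by norm_num) hf hfρ) (wt_BM i 2 le_rfl hg hgρ))

lemma ker_deriv {d : ℕ} (J : Finset (Fin d)) (τ κ : ℝ) (z : E d) :
    HasDerivAt (fun κ : ℝ => ker J τ (κ * τ) z) (I * τ * (qb J z : ℂ) * ker J τ (κ * τ) z) κ := by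
  unfold W772.FA.ker
  have h1 : HasDerivAt (fun κ : ℝ => ((κ * τ : ℝ) : ℂ)) (τ : ℂ) κ := by
    have h2 : HasDerivAt (fun κ : ℝ => κ * τ) τ κ := hasDerivAt_mul_const τ
    exact h2.ofReal_comp
  have h3 : HasDerivAt (fun κ : ℝ => -((1 - I * (τ : ℂ)) * (qa J z : ℂ)) -
      (1 - I * ((κ * τ : ℝ) : ℂ)) * (qb J z : ℂ)) (I * τ * (qb J z : ℂ)) κ := by
    have h4 := ((h1.const_mul I).const_sub 1).mul_const (qb J z : ℂ)
    have h5 := h4.const_sub (-((1 - I * (τ : ℂ)) * (qa J z : ℂ)))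
    refine h5.congr_deriv ?_
    ring
  refine h3.cexp.congr_deriv ?_
  ring

lemma NN_deriv {d : ℕ} (J : Finset (Fin d)) (μ : Measure (E d)) [IsProbabilityMeasure μ]
    {A ρ : ℝ} {f g : E d → ℝ} (hf : BM A f) (hg : BM A g)
    (hfρ : ∀ z, f z ≠ 0 → ‖z‖ ≤ ρ) (hgρ : ∀ z, g z ≠ 0 → ‖z‖ ≤ ρ) (τ κ : ℝ) :
    HasDerivAt (fun κ : ℝ => NN J μ f g τ (κ * τ)) (I * τ * Nw J μ f g τ (κ * τ)) κ := by
  have hA : 0 ≤ A := (abs_nonneg _).trans (hf.2 0)
  have h := hasDerivAt_integral_of_dominated_loc_of_deriv_le (μ := μ.prod μ)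
    (F := fun κ (p : E d × E d) => ker J τ (κ * τ) (p.1 - p.2) * ((f p.1 * g p.2 : ℝ) : ℂ))
    (F' := fun κ (p : E d × E d) => I * τ * (qb J (p.1 - p.2) : ℂ) * ker J τ (κ * τ) (p.1 - p.2) *
      ((f p.1 * g p.2 : ℝ) : ℂ)) (x₀ := κ) (s := univ) (bound := fun _ => |τ| * A ^ 2)
    Filter.univ_mem
    (Eventually.of_forall fun x => (int_meas J hf hg τ (x * τ)).aestronglyMeasurable)
    (int_integrable J μ hf hg τ (κ * τ)) ?_ ?_ (integrable_const _) ?_
  · refine h.2.congr_deriv ?_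
    rw [Nw_eq J μ hf hg hfρ hgρ, ← integral_const_mul]
    congr 1
    ext p
    ring
  · have h1 : Measurable (fun p : E d × E d => I * τ * (qb J (p.1 - p.2) : ℂ)) := by
      have : Continuous (fun p : E d × E d => qb J (p.1 - p.2)) :=
        (qb_cont J).comp (by fun_prop)
      exact (by fun_prop : Continuous (fun p : E d × E d => I * τ * (qb J (p.1 - p.2) : ℂ))).measurable
    have h2 := (h1.mul (int_meas J hf hg τ (κ * τ))).aestronglyMeasurable (μ := μ.prod μ)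
    refine h2.congr (Eventually.of_forall fun p => ?_)
    simp only [Pi.mul_apply]
    ring
  · refine Eventually.of_forall fun p x _ => ?_
    rw [norm_mul, norm_mul, norm_mul, norm_mul, norm_ker, Complex.norm_I, Complex.norm_real,
      Complex.norm_real, Complex.norm_real, Real.norm_eq_abs, Real.norm_eq_abs, Real.norm_eq_abs,
      abs_mul, one_mul, abs_of_nonneg (qb_nonneg J _)]
    have h1 := qa_nonneg J (p.1 - p.2)
    have h2 := qb_nonneg J (p.1 - p.2)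
    have h3 : qb J (p.1 - p.2) * Real.exp (-(qa J (p.1 - p.2) + qb J (p.1 - p.2))) ≤ 1 := by
      rw [Real.exp_neg, ← div_eq_mul_inv, div_le_one (Real.exp_pos _)]
      have := Real.add_one_le_exp (qa J (p.1 - p.2) + qb J (p.1 - p.2))
      linarith
    have h4 := hf.2 p.1
    have h5 := hg.2 p.2
    calc |τ| * qb J (p.1 - p.2) * Real.exp (-(qa J (p.1 - p.2) + qb J (p.1 - p.2))) *
          (|f p.1| * |g p.2|) = |τ| * (qb J (p.1 - p.2) *
            Real.exp (-(qa J (p.1 - p.2) + qb J (p.1 - p.2)))) * (|f p.1| * |g p.2|) := by ring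
      _ ≤ |τ| * 1 * (A * A) := by gcongr
      _ = |τ| * A ^ 2 := by ring
  · refine Eventually.of_forall fun p x _ => ?_
    exact (ker_deriv J τ x (p.1 - p.2)).mul_const _

end Pool.Agent.W607.FA
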