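import Mathlib
import Pool.Agent.W772.FA.Defs
import Pool.Agent.W777.DL.Dim
import Pool.Agent.W607.FA.DIMa
import Pool.Agent.W607.FA.DIMb

set_option autoImplicit false

/-! The exceptional parameters: `S_DIM`. -/

namespace Pool.Agent.W607.FA

open MeasureTheory Set Metric Filter Complex Pool.Agent.W772.FA
open scoped ENNReal Topology

/-- integrand of `Z` -/
noncomputable def G2 (N M : ℝ → ℝ → ℂ) (u v : ℝ) : ℝ≥0∞ :=
  ENNReal.ofReal (‖N u v‖ ^ 2) + ENNReal.ofReal (‖M u v‖ ^ 2)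

lemma G2_meas (N M : ℝ → ℝ → ℂ) (hN : Continuous (fun w : ℝ × ℝ => N w.1 w.2))
    (hM : Continuous (fun w : ℝ × ℝ => M w.1 w.2)) : Measurable (Function.uncurry (G2 N M)) := by
  have h1 := hN.measurable
  have h2 := hM.measurable
  unfold G2
  simp only [Function.uncurry_def]
  fun_prop

lemma G2_swap (N M : ℝ → ℝ → ℂ) (hN : Continuous (fun w : ℝ × ℝ => N w.1 w.2))
    (hM : Continuous (fun w : ℝ × ℝ => M w.1 w.2)) (a b R : ℝ) :
    ∫⁻ s in Icc a b, ∫⁻ τ in Icc R (2 * R), G2 N M τ (s * τ) =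
      ∫⁻ τ in Icc R (2 * R), ∫⁻ s in Icc a b, G2 N M τ (s * τ) := by
  apply lintegral_lintegral_swap
  apply Measurable.aemeasurable
  have h := (G2_meas N M hN hM).comp
    (by fun_prop : Measurable (fun w : ℝ × ℝ => (w.2, w.1 * w.2)))
  exact h

/-- the local bound -/
lemma part1 (N M : ℝ → ℝ → ℂ) (hN : Continuous (fun w : ℝ × ℝ => N w.1 w.2))
    (hM : Continuous (fun w : ℝ × ℝ => M w.1 w.2))
    (hd : ∀ τ κ : ℝ, HasDerivAt (fun κ : ℝ => N τ (κ * τ)) (I * τ * M τ (κ * τ)) κ)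
    (R : ℝ) (hR : 0 < R) (a b : ℝ) (hab : b - a = 3 / R) (L : ℝ) (hL : L ∈ Icc a b) :
    ENNReal.ofReal (3 / R) * ∫⁻ τ in Icc R (2 * R), ENNReal.ofReal (‖N τ (L * τ)‖ ^ 2) ≤
      72 * ∫⁻ s in Icc a b, ∫⁻ τ in Icc R (2 * R), G2 N M τ (s * τ) := by
  rw [G2_swap N M hN hM]
  rw [← lintegral_const_mul' _ _ ENNReal.ofReal_ne_top, ← lintegral_const_mul' _ _ (by norm_num)]
  apply setLIntegral_mono' measurableSet_Icc
  intro τ hτ
  have hτ0 : 0 < τ := lt_of_lt_of_le hR hτ.1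
  have hc1 : Continuous (fun κ : ℝ => (τ, κ * τ)) := by fun_prop
  have hcN : Continuous (fun κ : ℝ => N τ (κ * τ)) := hN.comp hc1
  have hcM : Continuous (fun κ : ℝ => M τ (κ * τ)) := hM.comp hc1
  have hcont : Continuous (fun κ : ℝ => I * τ * M τ (κ * τ)) := continuous_const.mul hcM
  have h1 := loc_bound (fun κ => N τ (κ * τ)) (fun κ => I * τ * M τ (κ * τ))
    a b (by
      have : 0 < 3 / R := by positivity
      linarith) (fun x => hd τ x) hcont L hL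
  rw [hab] at h1
  rw [ofReal_sq]
  refine h1.trans ?_
  have h3 : ∀ x : ℝ, ‖I * (τ : ℂ) * M τ (x * τ)‖ₑ ^ 2 =
      ENNReal.ofReal τ ^ 2 * ENNReal.ofReal (‖M τ (x * τ)‖ ^ 2) := by
    intro x
    rw [ofReal_sq, ← mul_pow]
    congr 1
    rw [enorm_mul, enorm_mul]
    congr 1
    rw [← ofReal_norm, ← ofReal_norm, Complex.norm_I, Complex.norm_real, Real.norm_eq_abs,
      abs_of_pos hτ0, ENNReal.ofReal_one, one_mul]
  simp_rw [h3]
  rw [lintegral_const_mul' _ _ (by simp)]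
  have h4 : ENNReal.ofReal (3 / R) ^ 2 * ENNReal.ofReal τ ^ 2 ≤ 36 := by
    rw [← mul_pow, ← ENNReal.ofReal_mul (by positivity), ← ENNReal.ofReal_pow (by positivity)]
    have h5 : (3 / R * τ) ^ 2 ≤ 36 := by
      have h6 : 3 / R * τ ≤ 6 := by
        rw [div_mul_eq_mul_div, div_le_iff₀ hR]
        linarith [hτ.2]
      have h7 : 0 ≤ 3 / R * τ := by positivity
      nlinarith
    calc ENNReal.ofReal ((3 / R * τ) ^ 2) ≤ ENNReal.ofReal 36 := ENNReal.ofReal_le_ofReal h5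
      _ = 36 := by norm_num
  have h8 : (∫⁻ x in Icc a b, G2 N M τ (x * τ)) =
      (∫⁻ x in Icc a b, ENNReal.ofReal (‖N τ (x * τ)‖ ^ 2)) +
      ∫⁻ x in Icc a b, ENNReal.ofReal (‖M τ (x * τ)‖ ^ 2) := by
    unfold G2
    rw [lintegral_add_left]
    exact ((hcN.measurable.norm).pow_const 2).ennreal_ofReal
  rw [h8]
  have h9 : (∫⁻ x in Icc a b, ‖N τ (x * τ)‖ₑ ^ 2) =
      ∫⁻ x in Icc a b, ENNReal.ofReal (‖N τ (x * τ)‖ ^ 2) := by
    simp_rw [ofReal_sq]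
  rw [h9]
  set X := ∫⁻ x in Icc a b, ENNReal.ofReal (‖N τ (x * τ)‖ ^ 2)
  set Y := ∫⁻ x in Icc a b, ENNReal.ofReal (‖M τ (x * τ)‖ ^ 2)
  calc 2 * X + 2 * ENNReal.ofReal (3 / R) ^ 2 * (ENNReal.ofReal τ ^ 2 * Y) =
        2 * X + 2 * (ENNReal.ofReal (3 / R) ^ 2 * ENNReal.ofReal τ ^ 2) * Y := by ring
    _ ≤ 72 * X + 2 * 36 * Y := by
        gcongr
        norm_num
    _ = 72 * (X + Y) := by ring

lemma BM_mono {d : ℕ} {A B : ℝ} (h : A ≤ B) {f : E d → ℝ} (hf : BM A f) : BM B f :=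
  ⟨hf.1, fun z => (hf.2 z).trans h⟩

lemma sq_sum {d : ℕ} (J : Finset (Fin d)) (x y w : Fin d → ℂ) :
    ENNReal.ofReal (‖∑ i ∈ J, (x i - 2 * y i + w i)‖ ^ 2) ≤ ENNReal.ofReal (12 * J.card) * ∑ i ∈ J,
      (ENNReal.ofReal (‖x i‖ ^ 2) + ENNReal.ofReal (‖y i‖ ^ 2) + ENNReal.ofReal (‖w i‖ ^ 2)) := by
  have e : ∀ i ∈ J,
      (ENNReal.ofReal (‖x i‖ ^ 2) + ENNReal.ofReal (‖y i‖ ^ 2) + ENNReal.ofReal (‖w i‖ ^ 2)) =
      ENNReal.ofReal (‖x i‖ ^ 2 + ‖y i‖ ^ 2 + ‖w i‖ ^ 2) := by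
    intro i _
    rw [ENNReal.ofReal_add (by positivity) (by positivity),
      ENNReal.ofReal_add (by positivity) (by positivity)]
  rw [Finset.sum_congr rfl e, ← ENNReal.ofReal_sum_of_nonneg (fun i _ => by positivity),
    ← ENNReal.ofReal_mul (by positivity)]
  apply ENNReal.ofReal_le_ofReal
  have h1 := norm_sum_le J (fun i => x i - 2 * y i + w i)
  have h2 := pow_le_pow_left₀ (norm_nonneg _) h1 2
  refine h2.trans ?_
  refine sq_sum_le_card_mul_sum_sq.trans ?_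
  rw [mul_comm (12 : ℝ), mul_assoc, Finset.mul_sum _ _ (12:ℝ)]
  gcongr with i _
  have h3 : ‖x i - 2 * y i + w i‖ ≤ ‖x i‖ + 2 * ‖y i‖ + ‖w i‖ := by
    calc ‖x i - 2 * y i + w i‖ ≤ ‖x i - 2 * y i‖ + ‖w i‖ := norm_add_le _ _
      _ ≤ ‖x i‖ + ‖2 * y i‖ + ‖w i‖ := by gcongr; exact norm_sub_le _ _
      _ = _ := by rw [norm_mul]; norm_num
  calc ‖x i - 2 * y i + w i‖ ^ 2 ≤ (‖x i‖ + 2 * ‖y i‖ + ‖w i‖) ^ 2 := by gcongr
    _ ≤ 12 * (‖x i‖ ^ 2 + ‖y i‖ ^ 2 + ‖w i‖ ^ 2) := by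
      nlinarith [sq_nonneg (‖x i‖ - 2 * ‖y i‖), sq_nonneg (‖x i‖ - ‖w i‖),
        sq_nonneg (2 * ‖y i‖ - ‖w i‖), sq_nonneg ‖x i‖, sq_nonneg ‖y i‖, sq_nonneg ‖w i‖]

lemma wt_zero {d : ℕ} (i : Fin d) (f : E d → ℝ) : wt i 0 f = f := by
  ext z
  unfold wt
  simp

/-- a bound for `∬ |∑|²` -/
lemma sum_int {d : ℕ} (J : Finset (Fin d)) (x y w : Fin d → ℝ → ℝ → ℂ)
    (hx : ∀ i, Continuous (fun p : ℝ × ℝ => x i p.1 p.2))
    (hy : ∀ i, Continuous (fun p : ℝ × ℝ => y i p.1 p.2))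
    (hw : ∀ i, Continuous (fun p : ℝ × ℝ => w i p.1 p.2)) (ν : Measure ℝ) (ν' : Measure ℝ)
    [SFinite ν] [SFinite ν'] (K : ℝ≥0∞)
    (hKx : ∀ i, ∫⁻ u, ∫⁻ v, ENNReal.ofReal (‖x i u v‖ ^ 2) ∂ν' ∂ν ≤ K)
    (hKy : ∀ i, ∫⁻ u, ∫⁻ v, ENNReal.ofReal (‖y i u v‖ ^ 2) ∂ν' ∂ν ≤ K)
    (hKw : ∀ i, ∫⁻ u, ∫⁻ v, ENNReal.ofReal (‖w i u v‖ ^ 2) ∂ν' ∂ν ≤ K) :
    ∫⁻ u, ∫⁻ v, ENNReal.ofReal (‖∑ i ∈ J, (x i u v - 2 * y i u v + w i u v)‖ ^ 2) ∂ν' ∂ν ≤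
      ENNReal.ofReal (12 * J.card) * (J.card * (3 * K)) := by
  have hm : ∀ z : Fin d → ℝ → ℝ → ℂ, (∀ i, Continuous (fun p : ℝ × ℝ => z i p.1 p.2)) → ∀ i,
      Measurable (fun p : ℝ × ℝ => ENNReal.ofReal (‖z i p.1 p.2‖ ^ 2)) := by
    intro z hz i
    have := (hz i).measurable
    fun_prop
  have hm1 : ∀ z : Fin d → ℝ → ℝ → ℂ, (∀ i, Continuous (fun p : ℝ × ℝ => z i p.1 p.2)) → ∀ i u,
      Measurable (fun v : ℝ => ENNReal.ofReal (‖z i u v‖ ^ 2)) := fun z hz i u =>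
    (hm z hz i).comp (measurable_prodMk_left (x := u))
  have hm2 : ∀ z : Fin d → ℝ → ℝ → ℂ, (∀ i, Continuous (fun p : ℝ × ℝ => z i p.1 p.2)) → ∀ i,
      Measurable (fun u : ℝ => ∫⁻ v, ENNReal.ofReal (‖z i u v‖ ^ 2) ∂ν') := fun z hz i =>
    (hm z hz i).lintegral_prod_right'
  calc ∫⁻ u, ∫⁻ v, ENNReal.ofReal (‖∑ i ∈ J, (x i u v - 2 * y i u v + w i u v)‖ ^ 2) ∂ν' ∂ν
      ≤ ∫⁻ u, ∫⁻ v, (ENNReal.ofReal (12 * J.card) * ∑ i ∈ J,
      (ENNReal.ofReal (‖x i u v‖ ^ 2) + ENNReal.ofReal (‖y i u v‖ ^ 2) +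
        ENNReal.ofReal (‖w i u v‖ ^ 2))) ∂ν' ∂ν := by
        refine lintegral_mono fun u => lintegral_mono fun v => ?_
        exact sq_sum J (fun i => x i u v) (fun i => y i u v) (fun i => w i u v)
    _ = ENNReal.ofReal (12 * J.card) * ∑ i ∈ J,
        ((∫⁻ u, ∫⁻ v, ENNReal.ofReal (‖x i u v‖ ^ 2) ∂ν' ∂ν) +
        (∫⁻ u, ∫⁻ v, ENNReal.ofReal (‖y i u v‖ ^ 2) ∂ν' ∂ν) +
        (∫⁻ u, ∫⁻ v, ENNReal.ofReal (‖w i u v‖ ^ 2) ∂ν' ∂ν)) := by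
        simp_rw [lintegral_const_mul' _ _ ENNReal.ofReal_ne_top]
        congr 1
        have a1 : ∀ u, ∫⁻ v, ∑ i ∈ J,
            (ENNReal.ofReal (‖x i u v‖ ^ 2) + ENNReal.ofReal (‖y i u v‖ ^ 2) +
            ENNReal.ofReal (‖w i u v‖ ^ 2)) ∂ν' = ∑ i ∈ J,
            ((∫⁻ v, ENNReal.ofReal (‖x i u v‖ ^ 2) ∂ν') +
            (∫⁻ v, ENNReal.ofReal (‖y i u v‖ ^ 2) ∂ν') +
            (∫⁻ v, ENNReal.ofReal (‖w i u v‖ ^ 2) ∂ν')) := by
          intro u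
          rw [lintegral_finsetSum]
          · apply Finset.sum_congr rfl
            intro i _
            rw [lintegral_add_right _ (hm1 w hw i u), lintegral_add_right _ (hm1 y hy i u)]
          · intro i _
            exact ((hm1 x hx i u).add (hm1 y hy i u)).add (hm1 w hw i u)
        simp_rw [a1]
        rw [lintegral_finsetSum]
        · apply Finset.sum_congr rfl
          intro i _
          rw [lintegral_add_right _ (hm2 w hw i), lintegral_add_right _ (hm2 y hy i)]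
        · intro i _
          exact ((hm2 x hx i).add (hm2 y hy i)).add (hm2 w hw i)
    _ ≤ ENNReal.ofReal (12 * J.card) * ∑ i ∈ J, (K + K + K) := by
        gcongr with i _
        · exact hKx i
        · exact hKy i
        · exact hKw i
    _ = _ := by
        rw [Finset.sum_const, nsmul_eq_mul]
        congr 2
        ring

lemma G2_int (N M : ℝ → ℝ → ℂ) (hN : Continuous (fun w : ℝ × ℝ => N w.1 w.2))
    (ν ν' : Measure ℝ) [SFinite ν] [SFinite ν'] :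
    ∫⁻ u, ∫⁻ v, G2 N M u v ∂ν' ∂ν = (∫⁻ u, ∫⁻ v, ENNReal.ofReal (‖N u v‖ ^ 2) ∂ν' ∂ν) +
      ∫⁻ u, ∫⁻ v, ENNReal.ofReal (‖M u v‖ ^ 2) ∂ν' ∂ν := by
  have hm : Measurable (fun p : ℝ × ℝ => ENNReal.ofReal (‖N p.1 p.2‖ ^ 2)) := by
    have := hN.measurable
    fun_prop
  have hm1 : ∀ u, Measurable (fun v : ℝ => ENNReal.ofReal (‖N u v‖ ^ 2)) := fun u =>
    hm.comp (measurable_prodMk_left (x := u))
  have hm2 : Measurable (fun u : ℝ => ∫⁻ v, ENNReal.ofReal (‖N u v‖ ^ 2) ∂ν') :=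
    hm.lintegral_prod_right'
  unfold G2
  simp_rw [lintegral_add_left (hm1 _)]
  rw [lintegral_add_left hm2]

/-- `S_DIM` in abstract form -/
lemma abs_dim (N M : ℝ → ℝ → ℂ) (hN : Continuous (fun w : ℝ × ℝ => N w.1 w.2))
    (hM : Continuous (fun w : ℝ × ℝ => M w.1 w.2))
    (hd : ∀ τ κ : ℝ, HasDerivAt (fun κ : ℝ => N τ (κ * τ)) (I * τ * M τ (κ * τ)) κ)
    (Q K : ℝ≥0∞) (hQ : Q ≠ ⊤) (hK : K ≠ ⊤) (hGQ : ∀ u v, G2 N M u v ≤ Q) (γ e : ℝ)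
    (hge : 0 ≤ γ + e)
    (hint : ∀ R : ℝ, 2 ≤ R → ∫⁻ u in Icc R (2 * R), ∫⁻ v in Icc R (8 * R), G2 N M u v ≤
      K * ENNReal.ofReal (R ^ e)) :
    dimH {κ ∈ Icc (1 : ℝ) 4 | ∃ᶠ j in atTop,
      ENNReal.ofReal (((2 ^ j : ℕ) : ℝ) ^ (-γ)) <
        ∫⁻ τ in Icc ((2 ^ j : ℕ) : ℝ) (2 * ((2 ^ j : ℕ) : ℝ)),
          ENNReal.ofReal (‖N τ (κ * τ)‖ ^ 2)} ≤ ENNReal.ofReal (γ + e) := by
  have key := Pool.Agent.W777.DL.dim_bound (c := 1) (w := 3) (by norm_num)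
    (fun j κ => ∫⁻ τ in Icc ((2 ^ j : ℕ) : ℝ) (2 * ((2 ^ j : ℕ) : ℝ)),
          ENNReal.ofReal (‖N τ (κ * τ)‖ ^ 2))
    (fun j κ => ∫⁻ τ in Icc ((2 ^ j : ℕ) : ℝ) (2 * ((2 ^ j : ℕ) : ℝ)), G2 N M τ (κ * τ))
    72 (K + 3 * Q) (by norm_num) (by
      refine ENNReal.add_ne_top.2 ⟨hK, ENNReal.mul_ne_top (by norm_num) hQ⟩) γ e hge ?_ ?_
  · have e3 : (1:ℝ) + 3 = 4 := by norm_num
    rw [e3] at key
    exact key
  · intro j k _ L hL
    have hR : (0:ℝ) < ((2 ^ j : ℕ) : ℝ) := by positivity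
    exact part1 N M hN hM hd _ hR _ _ (by ring) L hL
  · intro j
    have e3 : (1:ℝ) + 3 = 4 := by norm_num
    rw [e3]
    rcases Nat.eq_zero_or_pos j with hj | hj
    · rw [hj]
      have e4 : ((2 ^ 0 : ℕ) : ℝ) = 1 := by norm_num
      have e5 : (2:ℝ) * 1 = 2 := by norm_num
      have e6 : (K + 3 * Q) * ENNReal.ofReal ((1:ℝ) ^ (e - 1)) = K + 3 * Q := by
        rw [Real.one_rpow, ENNReal.ofReal_one, mul_one]
      rw [e4, e6]
      simp only [e5]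
      calc ∫⁻ s in Icc (1:ℝ) 4, ∫⁻ τ in Icc (1:ℝ) 2, G2 N M τ (s * τ)
          ≤ ∫⁻ s in Icc (1:ℝ) 4, ∫⁻ τ in Icc (1:ℝ) 2, Q :=
            lintegral_mono fun s => lintegral_mono fun τ => hGQ _ _
        _ = 3 * Q := by
            simp only [lintegral_const, Measure.restrict_apply_univ, Real.volume_Icc]
            norm_num
            ring
        _ ≤ K + 3 * Q := le_add_self
    · have hR2 : (2:ℝ) ≤ ((2 ^ j : ℕ) : ℝ) := by
        have : 2 ^ 1 ≤ 2 ^ j := Nat.pow_le_pow_right (by norm_num) hj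
        exact_mod_cast this
      set R : ℝ := ((2 ^ j : ℕ) : ℝ) with hRd
      have hR0 : 0 < R := by linarith
      refine (sub_bound (G2 N M) (G2_meas N M hN hM) R hR0).trans ?_
      calc ENNReal.ofReal R⁻¹ * ∫⁻ u in Icc R (2 * R), ∫⁻ v in Icc R (8 * R), G2 N M u v
          ≤ ENNReal.ofReal R⁻¹ * (K * ENNReal.ofReal (R ^ e)) := by
            gcongr
            exact hint R hR2
        _ = K * (ENNReal.ofReal R⁻¹ * ENNReal.ofReal (R ^ e)) := by ring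
        _ = K * ENNReal.ofReal (R ^ (e - 1)) := by
            rw [← ENNReal.ofReal_mul (by positivity), Real.rpow_sub_one hR0.ne']
            congr 2
            field_simp
        _ ≤ (K + 3 * Q) * ENNReal.ofReal (R ^ (e - 1)) := by
            gcongr
            exact le_self_add

theorem dim : S_DIM := by
  intro hME d J μ hμ C₀ s c A ρ hC₀ hs hc hA hFr f g hf hg hSep hfρ hgρ γ _ hge
  set B : ℝ := (1 + |ρ|) ^ 2 * A with hB
  have hB0 : 0 ≤ B := by positivity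
  have hAB : A ≤ B := by
    have h1 : 1 ≤ (1 + |ρ|) ^ 2 := one_le_pow₀ (by linarith [abs_nonneg ρ])
    nlinarith
  obtain ⟨C, hC, hCME⟩ := hME d J μ hμ C₀ s c B hC₀ hs hc hB0 hFr
  have hw1 : ∀ (i : Fin d) (k : ℕ), k ≤ 2 → BM B (wt i k f) := fun i k hk => wt_BM i k hk hf hfρ
  have hw2 : ∀ (i : Fin d) (k : ℕ), k ≤ 2 → BM B (wt i k g) := fun i k hk => wt_BM i k hk hg hgρ
  have hkl : ∀ (i : Fin d) (k l : ℕ), k ≤ 2 → l ≤ 2 → ∀ R : ℝ, 2 ≤ R →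
      ∫⁻ u in Icc R (2 * R), ∫⁻ v in Icc R (8 * R),
        ENNReal.ofReal (‖NN J μ (wt i k f) (wt i l g) u v‖ ^ 2) ≤
        ENNReal.ofReal (C * R ^ (1 + (d : ℝ) / 2 - s)) := fun i k l hk hl R hR =>
    hCME _ _ (hw1 i k hk) (hw2 i l hl) (fun z z' h h' => hSep z z' (wt_ne h) (wt_ne h')) R hR
  have hNc : Continuous (fun w : ℝ × ℝ => NN J μ f g w.1 w.2) := NN_cont J μ hf hg
  have hMc : Continuous (fun w : ℝ × ℝ => Nw J μ f g w.1 w.2) := Nw_cont J μ hf hg hfρ hgρ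
  have hcc : ∀ (k l : ℕ), k ≤ 2 → l ≤ 2 → ∀ i : Fin d,
      Continuous (fun p : ℝ × ℝ => NN J μ (wt i k f) (wt i l g) p.1 p.2) := fun k l hk hl i =>
    NN_cont J μ (hw1 i k hk) (hw2 i l hl)
  have hb : ∀ (k l : ℕ), k ≤ 2 → l ≤ 2 → ∀ (i : Fin d) (u v : ℝ),
      ENNReal.ofReal (‖NN J μ (wt i k f) (wt i l g) u v‖ ^ 2) ≤ ENNReal.ofReal ((B ^ 2) ^ 2) := by
    intro k l hk hl i u v
    apply ENNReal.ofReal_le_ofReal
    exact pow_le_pow_left₀ (norm_nonneg _) (NN_bound J μ (hw1 i k hk) (hw2 i l hl) u v) 2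
  set T : ℝ≥0∞ := ENNReal.ofReal ((B ^ 2) ^ 2) with hT
  have main := abs_dim (NN J μ f g) (Nw J μ f g) hNc hMc
    (fun τ κ => NN_deriv J μ hf hg hfρ hgρ τ κ)
    (T + ENNReal.ofReal (12 * J.card) * ∑ i ∈ J, (T + T + T))
    (ENNReal.ofReal C * (1 + ENNReal.ofReal (12 * J.card) * (J.card * 3))) ?_ ?_ ?_
    γ (1 + (d : ℝ) / 2 - s) hge ?_
  · exact main
  · rw [hT]
    refine ENNReal.add_ne_top.2 ⟨ENNReal.ofReal_ne_top, ENNReal.mul_ne_top ENNReal.ofReal_ne_top ?_⟩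
    rw [Finset.sum_const, nsmul_eq_mul]
    exact ENNReal.mul_ne_top (ENNReal.natCast_ne_top _) (ENNReal.add_ne_top.2
      ⟨ENNReal.add_ne_top.2 ⟨ENNReal.ofReal_ne_top, ENNReal.ofReal_ne_top⟩, ENNReal.ofReal_ne_top⟩)
  · refine ENNReal.mul_ne_top ENNReal.ofReal_ne_top (ENNReal.add_ne_top.2 ⟨ENNReal.one_ne_top,
      ENNReal.mul_ne_top ENNReal.ofReal_ne_top (ENNReal.mul_ne_top (ENNReal.natCast_ne_top _)
        (by norm_num))⟩)
  · intro u v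
    unfold G2
    refine add_le_add ?_ ?_
    · apply ENNReal.ofReal_le_ofReal
      exact pow_le_pow_left₀ (norm_nonneg _)
        (NN_bound J μ (BM_mono hAB hf) (BM_mono hAB hg) u v) 2
    · refine (sq_sum J (fun i => NN J μ (wt i 2 f) (wt i 0 g) u v)
          (fun i => NN J μ (wt i 1 f) (wt i 1 g) u v)
          (fun i => NN J μ (wt i 0 f) (wt i 2 g) u v)).trans ?_
      gcongr with i _
      · exact hb 2 0 le_rfl (by norm_num) i u v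
      · exact hb 1 1 (by norm_num) (by norm_num) i u v
      · exact hb 0 2 (by norm_num) le_rfl i u v
  · intro R hR
    rw [G2_int _ _ hNc]
    have h1 := hCME f g (BM_mono hAB hf) (BM_mono hAB hg) hSep R hR
    have h2 := sum_int J (fun i u v => NN J μ (wt i 2 f) (wt i 0 g) u v)
          (fun i u v => NN J μ (wt i 1 f) (wt i 1 g) u v)
          (fun i u v => NN J μ (wt i 0 f) (wt i 2 g) u v)
          (hcc 2 0 le_rfl (by norm_num)) (hcc 1 1 (by norm_num) (by norm_num))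
          (hcc 0 2 (by norm_num) le_rfl) (volume.restrict (Icc R (2 * R)))
          (volume.restrict (Icc R (8 * R))) (ENNReal.ofReal (C * R ^ (1 + (d : ℝ) / 2 - s)))
          (fun i => hkl i 2 0 le_rfl (by norm_num) R hR)
          (fun i => hkl i 1 1 (by norm_num) (by norm_num) R hR)
          (fun i => hkl i 0 2 (by norm_num) le_rfl R hR)
    refine (add_le_add h1 h2).trans (le_of_eq ?_)
    rw [ENNReal.ofReal_mul hC.le]
    ring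

end Pool.Agent.W607.FA
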